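import Pool.Agent.H67.Transv

/-! In `G = C₁₆ ⋊ C₄` (generator acting by `a ↦ a³`) no cyclic `2`-subgroup `H` with
`(H : core H) ≤ 2` attains the transversal probability. -/

namespace Pool.Agent.Results.MP_443384_al.Counter

open MulAction Pool.Agent.H67.Transv
open scoped Nat

section
variable {G : Type} [Group G] [Fintype G] [DecidableEq G]

def tau (S : Finset G) (x : G) : ℕ := S.card / (S.filter fun h => x⁻¹ * h * x ∈ S).card

theorem tau_eq (H : Subgroup G) (S : Finset G) (hS : ∀ g, g ∈ S ↔ g ∈ H) (x : G) :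
    (orbit H (x : G ⧸ H)).ncard = tau S x := by
  have h1 := Subgroup.card_mul_index (stabilizer H (x : G ⧸ H))
  have h2 : Nat.card H = S.card := by
    rw [← Nat.card_eq_finsetCard]; exact Nat.card_congr (Equiv.subtypeEquivRight hS).symm
  have h3 : Nat.card (stabilizer H (x : G ⧸ H)) = (S.filter fun h => x⁻¹ * h * x ∈ S).card := by
    rw [← Nat.card_eq_finsetCard]
    have e : ∀ h : H, h ∈ stabilizer H (x : G ⧸ H) ↔ x⁻¹ * h * x ∈ H := fun h => by
      rw [mem_stabilizer_iff, eq_comm, mul_assoc]; exact QuotientGroup.eq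
    exact Nat.card_congr ⟨fun h => ⟨h.1.1, Finset.mem_filter.2 ⟨(hS _).2 h.1.2,
      (hS _).2 ((e _).1 h.2)⟩⟩, fun h => ⟨⟨h.1, (hS _).1 (Finset.mem_filter.1 h.2).1⟩,
      (e _).2 ((hS _).1 (Finset.mem_filter.1 h.2).2)⟩, fun _ => rfl, fun _ => rfl⟩
  rw [tau, ← h2, ← h3, ← h1, index_stabilizer, Nat.mul_div_cancel_left _ Nat.card_pos]

theorem two (g : G) (h2 : g ^ 2 ∈ (Subgroup.zpowers g).normalCore) (x : G) :
    (orbit (Subgroup.zpowers g) (x : G ⧸ Subgroup.zpowers g)).ncard =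
      if x⁻¹ * g * x ∈ Subgroup.zpowers g then 1 else 2 := by
  have e : orbit (Subgroup.zpowers g) (x : G ⧸ Subgroup.zpowers g) =
      {(x : G ⧸ Subgroup.zpowers g), ((g * x : G) : G ⧸ Subgroup.zpowers g)} := by
    apply Set.Subset.antisymm
    · rintro _ ⟨⟨_, k, rfl⟩, rfl⟩
      have h := (Subgroup.zpowers g).normalCore.zpow_mem h2 (k / 2) x⁻¹
      rw [← zpow_natCast, ← zpow_mul, inv_inv] at h
      change ((g ^ k * x : G) : G ⧸ Subgroup.zpowers g) ∈ _
      rcases Int.emod_two_eq_zero_or_one k with h1 | h1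
      · left
        rw [eq_comm, QuotientGroup.eq, show k = ((2 : ℕ) : ℤ) * (k / 2) by push_cast; omega,
          ← mul_assoc]
        exact h
      · right
        rw [Set.mem_singleton_iff, eq_comm, QuotientGroup.eq,
          show k = 1 + ((2 : ℕ) : ℤ) * (k / 2) by push_cast; omega, zpow_add]
        simpa [mul_assoc] using h
    · rintro _ (rfl | rfl)
      exacts [mem_orbit_self _, ⟨⟨g, Subgroup.mem_zpowers g⟩, rfl⟩]
  rw [e]
  split_ifs with h
  · rw [mul_assoc, ← QuotientGroup.eq] at h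
    rw [← h]; simp
  · rw [mul_assoc, ← QuotientGroup.eq] at h
    exact Set.ncard_pair h

theorem pow_formula (H : Subgroup G) (τ : G → ℕ)
    (hτ : ∀ x : G, (orbit H (x : G ⧸ H)).ncard = τ x) (L : ℕ)
    (F : ℕ → ℚ) (hF : ∀ x, F (τ x) ^ τ x = (((τ x)! : ℚ) / (τ x : ℚ) ^ τ x) ^ L) :
    ∏ x, F (τ x) = P H H ^ (L * Nat.card H) := by
  classical
  haveI := Fintype.ofFinite (orbitRel.Quotient H (G ⧸ H))
  let d : G → orbitRel.Quotient H (G ⧸ H) := fun x => Quotient.mk _ (x : G ⧸ H)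
  rw [formula H H rfl, ← Finset.prod_pow, ← Finset.prod_fiberwise Finset.univ d]
  refine Finset.prod_congr rfl fun δ _ => ?_
  have e : ∀ x, τ x = (d x).orbit.ncard := fun x => (hτ x).symm
  rw [Finset.prod_congr rfl (g := fun _ => F δ.orbit.ncard) fun x hx => by
    rw [e, (Finset.mem_filter.1 hx).2], Finset.prod_const]
  have hc : (Finset.univ.filter fun x => d x = δ).card = δ.orbit.ncard * Nat.card H := by
    have := QuotientGroup.card_preimage_mk H δ.orbit
    rw [Nat.card_coe_set_eq δ.orbit, mul_comm] at this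
    rw [← this, ← Nat.card_eq_finsetCard]
    exact Nat.card_congr (Equiv.subtypeEquivRight fun x => by
      rw [Finset.mem_filter, Set.mem_preimage, orbitRel.Quotient.mem_orbit]; simp [d])
  obtain ⟨⟨x⟩⟩ := δ
  have := hF x
  rw [e] at this
  rw [hc, pow_mul, pow_mul]
  exact congrArg (· ^ Nat.card H) this

end

@[ext] structure G where
  a : Fin 16
  i : Fin 4
deriving DecidableEq

instance : Fintype G := Fintype.ofEquiv (Fin 16 × Fin 4)
  ⟨fun p => ⟨p.1, p.2⟩, fun g => (g.a, g.i), fun _ => rfl, fun _ => rfl⟩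

def c (i : Fin 4) : Fin 16 := if i = 0 then 1 else if i = 1 then 3 else if i = 2 then 9 else 11

theorem c_add : ∀ i j, c (i + j) = c i * c j := by decide

instance : Mul G := ⟨fun x y => ⟨x.a + c x.i * y.a, x.i + y.i⟩⟩
instance : One G := ⟨⟨0, 0⟩⟩
instance : Inv G := ⟨fun x => ⟨-(c (-x.i) * x.a), -x.i⟩⟩

open scoped Fin.CommRing in
theorem assoc (x y z : G) : x * y * z = x * (y * z) := G.ext (by
    change x.a + c x.i * y.a + c (x.i + y.i) * z.a = x.a + c x.i * (y.a + c y.i * z.a)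
    rw [c_add]; ring) (add_assoc _ _ _)

instance : Group G := Group.ofLeftAxioms assoc (by decide +kernel) (by decide +kernel)

def L (g : G) : List G := List.iterate (g * ·) 1 16

theorem hL (g x : G) : x ∈ L g ↔ x ∈ Subgroup.zpowers g := by
  have h : ∀ g : G, (g * ·)^[16] 1 = 1 := by decide +kernel
  simp only [mul_left_iterate, mul_one] at h
  simp only [L, List.mem_iterate, mul_left_iterate, mul_one]
  constructor
  · rintro ⟨k, -, rfl⟩
    exact Subgroup.npow_mem_zpowers g k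
  · intro hx
    obtain ⟨k, rfl⟩ := (mem_zpowers_iff_mem_range_orderOf.1 hx |> Finset.mem_image.1)
      |>.imp fun _ h => h.2
    exact ⟨k % 16, Nat.mod_lt _ (by norm_num), pow_eq_pow_mod k (h g)⟩

def S (g : G) : Finset G := (L g).toFinset

theorem hS (g x : G) : x ∈ S g ↔ x ∈ Subgroup.zpowers g := List.mem_toFinset.trans (hL g x)

def Ky (g : G) : Prop := (∀ x, x * (g * g) * x⁻¹ ∈ L g) →
    (Finset.univ.filter fun x => x⁻¹ * g * x ∉ L g).card ≤ 16 * (S g).card

instance (g : G) : Decidable (Ky g) := by unfold Ky; infer_instance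

theorem k0 : ∀ a, Ky ⟨a, 0⟩ := by decide +kernel
theorem k1 : ∀ a, Ky ⟨a, 1⟩ := by decide +kernel
theorem k2 : ∀ a, Ky ⟨a, 2⟩ := by decide +kernel
theorem k3 : ∀ a, Ky ⟨a, 3⟩ := by decide +kernel

theorem key (g : G) : Ky g := by
  obtain ⟨a, i⟩ := g
  fin_cases i
  exacts [k0 a, k1 a, k2 a, k3 a]

def b : G := ⟨0, 1⟩

def F (t : ℕ) : ℚ := if t = 1 then 1 else if t = 2 then 1 / 4 else 3 / 32

def T : Finset G := {⟨0, 0⟩, ⟨0, 1⟩, ⟨0, 2⟩, ⟨0, 3⟩}

theorem key2 : (∀ x, tau T x = 1 ∨ tau T x = 2 ∨ tau T x = 4) ∧ S b = T ∧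
    ∏ x, F (tau T x) < (1 / 256) ^ 16 := by
  decide +kernel

theorem cardS (g : G) : Nat.card (Subgroup.zpowers g) = (S g).card := by
  rw [← Nat.card_eq_finsetCard]; exact Nat.card_congr (Equiv.subtypeEquivRight (hS g)).symm

theorem P_nonneg (H : Subgroup G) : 0 ≤ P H H := by unfold P; positivity

theorem result : ∃ (G : Type) (_ : Group G) (_ : Finite G), Nontrivial G ∧
    ∀ p : ℕ, p.Prime → p ∣ Nat.card G → ∀ H : Subgroup G, IsCyclic H → IsPGroup p H →
      (∀ K : Subgroup G, P H H ≤ P K K) → p < H.normalCore.relIndex H := by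
  refine ⟨G, inferInstance, inferInstance, ⟨b, 1, by decide⟩, fun p hp hd H hH _ hmin => ?_⟩
  have h64 : Nat.card G = 2 ^ 6 := by rw [Nat.card_eq_fintype_card]; decide +kernel
  obtain rfl : p = 2 := (Nat.prime_dvd_prime_iff_eq hp Nat.prime_two).1
    (hp.dvd_of_dvd_pow (h64 ▸ hd))
  obtain ⟨g, rfl⟩ := (Subgroup.isCyclic_iff_exists_zpowers_eq_top H).1 hH
  by_contra hlt
  have h0 : (Subgroup.zpowers g).normalCore.relIndex (Subgroup.zpowers g) ≠ 0 :=
    Subgroup.index_ne_zero_of_finite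
  have h1 := (Subgroup.zpowers g).normalCore.pow_relIndex_mem (Subgroup.mem_zpowers g)
  have h2 : g ^ 2 ∈ (Subgroup.zpowers g).normalCore := by
    generalize (Subgroup.zpowers g).normalCore.relIndex (Subgroup.zpowers g) = k at *
    obtain rfl | rfl : k = 1 ∨ k = 2 := by omega
    · rw [pow_one] at h1; exact Subgroup.pow_mem _ h1 2
    · exact h1
  have k2 := key g fun x => (hL _ _).2 (by rw [← sq]; exact h2 x)
  have e1 := pow_formula _ _ (two g h2) 2 (fun t => if t = 1 then 1 else 1 / 2) fun x => by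
    split_ifs <;> first | omega | norm_num [Nat.factorial]
  have e2 := pow_formula _ _ (tau_eq _ T (key2.2.1 ▸ hS b)) 4 F fun x => by
    rcases key2.1 x with h | h | h <;> rw [h] <;> norm_num [Nat.factorial, F]
  rw [cardS, key2.2.1] at e2
  have l2 : P (Subgroup.zpowers b) (Subgroup.zpowers b) < 1 / 256 :=
    lt_of_pow_lt_pow_left₀ 16 (by norm_num) (e2 ▸ key2.2.2)
  rw [Finset.prod_ite, Finset.prod_const_one, one_mul, Finset.prod_const, cardS] at e1
  have l1 : (1 / 256 : ℚ) ^ (2 * (S g).card) ≤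
      P (Subgroup.zpowers g) (Subgroup.zpowers g) ^ (2 * (S g).card) := by
    rw [← e1, show (1 / 256 : ℚ) = (1 / 2) ^ 8 by norm_num, ← pow_mul]
    refine pow_le_pow_of_le_one (by norm_num) (by norm_num) (le_trans (le_of_eq ?_)
      (k2.trans (by omega)))
    congr 1
    ext x
    simp [hL]
  have hpos : 2 * (S g).card ≠ 0 := by
    rw [← cardS]; have := Nat.card_pos (α := Subgroup.zpowers g); omega
  have := (pow_le_pow_iff_left₀ (by norm_num) (P_nonneg _) hpos).1 l1
  have := hmin (Subgroup.zpowers b)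
  linarith

end Pool.Agent.Results.MP_443384_al.Counter
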